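import Pool.Agent.RTF.Stmts

/-!
# Squad RTF, module TIL: small kernels on finite quotients with good tiles
-/

namespace Pool.Agent.RTF.H66

open Pool.Agent.Glue Pool.Agent.FB Pool.Agent.CD

noncomputable section

variable {G : Type} [Group G]

/-- A function in the kernel that is supported in the inner parts of the tiles vanishes. -/
theorem core (M K : Subgroup G) (hM : M.Normal) (hK : K.Normal) (hMK : M ≤ K) (r : ℕ)
    (a : Fin r → Fin r → G →₀ F2)
    (hinj : ∀ f : Fin r → (G ⧸ M) → F2, (∀ l, (Function.support (f l)).Finite) →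
      f ∈ kerQ M a → f = 0)
    (B B0 H : Finset G)
    (hE : ∀ b ∈ B0, ∀ l l', ∀ h ∈ (a l l').support, ∃ b' ∈ B, b'⁻¹ * (b * h⁻¹) ∈ M)
    (hcov : ∀ g : G, ∃ h ∈ H, ∃ b ∈ B, (h * b)⁻¹ * g ∈ K)
    (huniq : ∀ h ∈ H, ∀ b ∈ B, ∀ h' ∈ H, ∀ b' ∈ B, (h * b)⁻¹ * (h' * b') ∈ K →
      h = h' ∧ b = b')
    (f : Fin r → (G ⧸ K) → F2) (hf : f ∈ kerQ K a)
    (hs : ∀ l, ∀ h ∈ H, ∀ b ∈ B, b ∉ B0 → f l ((h * b : G) : G ⧸ K) = 0) : f = 0 := by
  classical
  have key : ∀ h ∈ H, ∀ b ∈ B0, ∀ l, f l ((h * b : G) : G ⧸ K) = 0 := by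
    intro h hh
    let π : G ⧸ M → G ⧸ K := QuotientGroup.map M K (MonoidHom.id G) hMK
    have hπ : ∀ g : G, π (g : G ⧸ M) = (g : G ⧸ K) := fun g => rfl
    let ft : Fin r → (G ⧸ M) → F2 := fun l x =>
      if ∃ b0 ∈ B0, x = ((h * b0 : G) : G ⧸ M) then f l (π x) else 0
    have hft1 : ∀ l (g : G), (∃ b0 ∈ B0, (g : G ⧸ M) = ((h * b0 : G) : G ⧸ M)) →
        ft l (g : G ⧸ M) = f l (g : G ⧸ K) := by
      intro l g hg
      simp only [ft, if_pos hg, hπ]
    have hft0 : ∀ l (g : G), (¬ ∃ b0 ∈ B0, (g : G ⧸ M) = ((h * b0 : G) : G ⧸ M)) →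
        ft l (g : G ⧸ M) = 0 := by
      intro l g hg
      simp only [ft, if_neg hg]
    have hker : ft ∈ kerQ M a := by
      intro l g
      by_cases hg : ∃ b' ∈ B, (g : G ⧸ M) = ((h * b' : G) : G ⧸ M)
      · obtain ⟨b', hb', hgb⟩ := hg
        have hgK : (g : G ⧸ K) = ((h * b' : G) : G ⧸ K) := by
          rw [← hπ g, hgb, hπ]
        rw [← hf l g]
        refine Finset.sum_congr rfl fun l' _ => ?_
        refine Finsupp.sum_congr fun h' hh' => ?_
        congr 1
        by_cases hc : ∃ b0 ∈ B0, ((g * h' : G) : G ⧸ M) = ((h * b0 : G) : G ⧸ M)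
        · exact hft1 l' _ hc
        · rw [hft0 l' _ hc]
          symm
          obtain ⟨h1, hh1, b1, hb1, h2⟩ := hcov (g * h')
          have h3 : ((h1 * b1 : G) : G ⧸ K) = ((g * h' : G) : G ⧸ K) :=
            QuotientGroup.eq.2 h2
          rw [← h3]
          by_cases hb10 : b1 ∈ B0
          · exfalso
            obtain ⟨b2, hb2, h4⟩ := hE b1 hb10 l l' h' hh'
            have h5 : (b2 : G ⧸ M) = ((b1 * h'⁻¹ : G) : G ⧸ M) := QuotientGroup.eq.2 h4
            have h5' : (b2 : G ⧸ K) = ((b1 * h'⁻¹ : G) : G ⧸ K) := by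
              rw [← hπ b2, h5, hπ]
            have h6 : ((h1 * b2 : G) : G ⧸ K) = ((h * b' : G) : G ⧸ K) := by
              rw [← hgK, QuotientGroup.mk_mul, h5', QuotientGroup.mk_mul,
                ← mul_assoc, ← QuotientGroup.mk_mul, h3, ← QuotientGroup.mk_mul,
                mul_inv_cancel_right]
            obtain ⟨h7, h8⟩ := huniq h1 hh1 b2 hb2 h hh b' hb' (QuotientGroup.eq.1 h6)
            subst h7 h8
            apply hc
            refine ⟨b1, hb10, ?_⟩
            rw [QuotientGroup.mk_mul, hgb, QuotientGroup.mk_mul, h5, ← QuotientGroup.mk_mul,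
              ← QuotientGroup.mk_mul]
            congr 1
            group
          · exact hs l' h1 hh1 b1 hb1 hb10
      · refine Finset.sum_eq_zero fun l' _ => ?_
        refine Finset.sum_eq_zero fun h' hh' => ?_
        have hc : ¬ ∃ b0 ∈ B0, ((g * h' : G) : G ⧸ M) = ((h * b0 : G) : G ⧸ M) := by
          rintro ⟨b0, hb0, hc⟩
          obtain ⟨b2, hb2, h4⟩ := hE b0 hb0 l l' h' hh'
          have h5 : (b2 : G ⧸ M) = ((b0 * h'⁻¹ : G) : G ⧸ M) := QuotientGroup.eq.2 h4
          apply hg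
          refine ⟨b2, hb2, ?_⟩
          rw [QuotientGroup.mk_mul, h5, ← QuotientGroup.mk_mul, ← mul_assoc,
            QuotientGroup.mk_mul, ← hc, ← QuotientGroup.mk_mul, mul_inv_cancel_right]
        change (a l l') h' * ft l' ((g * h' : G) : G ⧸ M) = 0
        rw [hft0 l' _ hc, mul_zero]
    have hfin : ∀ l, (Function.support (ft l)).Finite := by
      intro l
      refine ((B0.finite_toSet).image fun b0 => ((h * b0 : G) : G ⧸ M)).subset ?_
      intro x hx
      have hx' : ft l x ≠ 0 := hx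
      by_contra hx2
      apply hx'
      simp only [ft]
      rw [if_neg]
      rintro ⟨b0, hb0, rfl⟩
      exact hx2 ⟨b0, hb0, rfl⟩
    have h0 := hinj ft hfin hker
    intro b hb l
    rw [← hft1 l (h * b) ⟨b, hb, rfl⟩, h0]
    rfl
  funext l x
  induction x using QuotientGroup.induction_on with
  | H g =>
    obtain ⟨h, hh, b, hb, h2⟩ := hcov g
    have h3 : ((h * b : G) : G ⧸ K) = (g : G ⧸ K) := QuotientGroup.eq.2 h2
    rw [← h3]
    by_cases hb0 : b ∈ B0
    · exact key h hh b hb0 l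
    · exact hs l h hh b hb hb0

theorem til (hFOL : FolStmt) : TilStmt := by
  classical
  intro G _ T i r a hinj ε hε
  let E : Finset G := Finset.univ.biUnion fun l => Finset.univ.biUnion fun l' =>
    (a l l').support.image fun h => h⁻¹
  have hEm : ∀ l l', ∀ h ∈ (a l l').support, h⁻¹ ∈ E := by
    intro l l' h hh
    simp only [E, Finset.mem_biUnion, Finset.mem_univ, true_and]
    exact ⟨l, l', Finset.mem_image_of_mem _ hh⟩
  have hr : (0 : ℝ) < (r : ℝ) + 1 := by positivity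
  obtain ⟨B, B0, K1, hBne, hB0, hcard, hBE, hBinj, hK1n, hK1f, hMK1, hK1⟩ :=
    hFOL G T i E (ε / (r + 1)) (by positivity)
  refine ⟨K1, hK1n, hK1f, hMK1, ?_⟩
  intro K hKn hKf hMK hKK1
  obtain ⟨H, hcov, huniq⟩ := hK1 K hKn hKf hMK hKK1
  -- the index
  have hindex : K.index = H.card * B.card := by
    let φ : {x // x ∈ H} × {x // x ∈ B} → G ⧸ K := fun x => ((x.1.1 * x.2.1 : G) : G ⧸ K)
    have hφ : Function.Bijective φ := by
      constructor
      · rintro ⟨⟨h, hh⟩, ⟨b, hb⟩⟩ ⟨⟨h', hh'⟩, ⟨b', hb'⟩⟩ heq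
        obtain ⟨h1, h2⟩ := huniq h hh b hb h' hh' b' hb' (QuotientGroup.eq.1 heq)
        subst h1 h2
        rfl
      · intro x
        induction x using QuotientGroup.induction_on with
        | H g =>
          obtain ⟨h, hh, b, hb, h2⟩ := hcov g
          exact ⟨⟨⟨h, hh⟩, ⟨b, hb⟩⟩, QuotientGroup.eq.2 h2⟩
    have h1 := Nat.card_congr (Equiv.ofBijective φ hφ)
    rw [Nat.card_prod, Nat.card_eq_fintype_card, Nat.card_eq_fintype_card,
      Fintype.card_coe, Fintype.card_coe] at h1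
    rw [h1]
    rfl
  -- the dimension
  have hdim : Module.finrank F2 (kerQ K a) ≤ r * (H.card * (B \ B0).card) := by
    let Φ : kerQ K a →ₗ[F2] (Fin r × {x // x ∈ H} × {x // x ∈ B \ B0} → F2) :=
      { toFun := fun f x => f.1 x.1 ((x.2.1.1 * x.2.2.1 : G) : G ⧸ K)
        map_add' := fun f f' => rfl
        map_smul' := fun c f => rfl }
    have hΦ : Function.Injective Φ := by
      rw [← LinearMap.ker_eq_bot, LinearMap.ker_eq_bot']
      intro f hf
      apply Subtype.ext
      refine core (T.M i) K (T.normal i) hKn hMK r a hinj B B0 H ?_ hcov huniq f.1 f.2 ?_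
      · intro b hb l l' h hh
        exact hBE b hb _ (hEm l l' h hh)
      · intro l h hh b hb hb0
        exact congrFun hf (l, ⟨h, hh⟩, ⟨b, Finset.mem_sdiff.2 ⟨hb, hb0⟩⟩)
    have h1 := LinearMap.finrank_le_finrank_of_injective hΦ
    refine h1.trans ?_
    rw [Module.finrank_fintype_fun_eq_card, Fintype.card_prod, Fintype.card_prod, Fintype.card_fin,
      Fintype.card_coe, Fintype.card_coe]
  have hsd : ((B \ B0).card : ℝ) = B.card - B0.card := by
    rw [Finset.card_sdiff_of_subset hB0, Nat.cast_sub (Finset.card_le_card hB0)]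
  have h2 : (Module.finrank F2 (kerQ K a) : ℝ) ≤ r * (H.card * (B \ B0).card) := by
    exact_mod_cast hdim
  refine h2.trans ?_
  rw [hindex, hsd]
  push_cast
  have h3 : (H.card : ℝ) * ((B.card : ℝ) - B0.card) ≤ H.card * (ε / (r + 1) * B.card) :=
    mul_le_mul_of_nonneg_left hcard (Nat.cast_nonneg _)
  have h4 : (r : ℝ) * (H.card * ((B.card : ℝ) - B0.card)) ≤
      r * (H.card * (ε / (r + 1) * B.card)) := mul_le_mul_of_nonneg_left h3 (Nat.cast_nonneg _)
  refine h4.trans ?_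
  have h5 : (r : ℝ) * (H.card * (ε / (r + 1) * B.card)) =
      (r / (r + 1)) * (ε * (H.card * B.card)) := by
    field_simp
  rw [h5]
  have h6 : (r : ℝ) / (r + 1) ≤ 1 := by
    rw [div_le_one hr]
    linarith
  have h7 : 0 ≤ ε * ((H.card : ℝ) * B.card) := by positivity
  calc (r : ℝ) / (r + 1) * (ε * (H.card * B.card)) ≤ 1 * (ε * (H.card * B.card)) :=
        mul_le_mul_of_nonneg_right h6 h7
    _ = ε * (H.card * B.card) := one_mul _

end

end Pool.Agent.RTF.H66
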